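import Pool.Agent.H979.DE.Stm

/-! `DE LAS`: a path which goes twice around a circuit is `Good` at some time, and the
continuation in the lattice. -/

set_option autoImplicit false

open MeasureTheory Finset Filter Pool.Agent.H41.Derrw Pool.Agent.H979.DE

namespace Pool.Agent.H314

theorem de_las (hNG : S_NG) : S_LAS := by
  intro V _ G _ w m ℓ u hu hv hw
  obtain ⟨h3, hinj, hadj⟩ := hu
  by_contra hcon
  push Not at hcon
  have hw0 : w m = u 0 := by
    have := hw 0 (by omega)
    simpa using this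
  have hw1 : w (m + 1) = u 1 := by
    have := hw 1 (by omega)
    simpa using this
  have hab : G.Adj (u 0) (u 1) := by
    have := hadj 0
    simpa using this
  have hng := hNG V G 0 w m hv (hcon m le_rfl (by omega)) (u 1) (by rw [hw0]; exact hab)
  have hc := hng.2
  rw [hw0] at hc
  have h2 : ((2 : ℕ) : ZMod ℓ) ≠ 0 := by
    intro h
    rw [ZMod.natCast_eq_zero_iff] at h
    have := Nat.le_of_dvd (by norm_num) h
    omega
  have hsum : cross w (m + 2 * ℓ) (u 0) (u 1) = cross w m (u 0) (u 1) +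
      ∑ i ∈ range (2 * ℓ), ((if w (m + i) = u 0 ∧ w (m + i + 1) = u 1 then (1 : ℤ) else 0) -
        (if w (m + i) = u 1 ∧ w (m + i + 1) = u 0 then 1 else 0)) := by
    unfold cross
    rw [Finset.sum_range_add]
  have hterm : ∀ i ∈ range (2 * ℓ),
      ((if w (m + i) = u 0 ∧ w (m + i + 1) = u 1 then (1 : ℤ) else 0) -
        (if w (m + i) = u 1 ∧ w (m + i + 1) = u 0 then 1 else 0)) =
      if ((i : ℕ) : ZMod ℓ) = 0 then 1 else 0 := by
    intro i hi
    rw [mem_range] at hi
    have e1 : w (m + i) = u (i : ZMod ℓ) := hw i (by omega)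
    have e2 : w (m + i + 1) = u ((i : ZMod ℓ) + 1) := by
      have := hw (i + 1) (by omega)
      rw [← add_assoc] at this
      rw [this]
      push_cast
      rfl
    rw [e1, e2]
    simp only [hinj.eq_iff]
    have e3 : ¬ ((i : ZMod ℓ) = 1 ∧ (i : ZMod ℓ) + 1 = 0) := by
      rintro ⟨h, h'⟩
      rw [h] at h'
      apply h2
      push_cast
      rw [← h']
      norm_num
    rw [if_neg e3, sub_zero]
    by_cases h : (i : ZMod ℓ) = 0
    · rw [if_pos h, if_pos ⟨h, by rw [h]; ring⟩]
    · rw [if_neg h, if_neg (fun hh => h hh.1)]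
  have hge : (2 : ℤ) ≤ ∑ i ∈ range (2 * ℓ), (if ((i : ℕ) : ZMod ℓ) = 0 then (1 : ℤ) else 0) := by
    have hsub : ({0, ℓ} : Finset ℕ) ⊆ range (2 * ℓ) := by
      intro i hi
      rw [mem_insert, mem_singleton] at hi
      rw [mem_range]
      omega
    have h1 := Finset.sum_le_sum_of_subset_of_nonneg (f := fun i : ℕ =>
      if ((i : ℕ) : ZMod ℓ) = 0 then (1 : ℤ) else 0) hsub (fun i _ _ => by
        split_ifs <;> norm_num)
    rw [Finset.sum_pair (by omega)] at h1
    simp only [Nat.cast_zero, if_true, ZMod.natCast_self] at h1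
    linarith
  have hfin : 1 ≤ cross w (m + 2 * ℓ) (u 0) (u 1) := by
    rw [hsum, Finset.sum_congr rfl hterm]
    linarith
  have hend : w (m + 2 * ℓ) = u 0 := by
    rw [hw (2 * ℓ) le_rfl]
    congr 1
    push_cast
    rw [ZMod.natCast_self, mul_zero]
  apply hcon (m + 2 * ℓ) (by omega) le_rfl
  refine ⟨u 1, ?_, ?_⟩
  · rw [hend]
    exact hab
  · rw [hend]
    omega

/-- The square at `a` in the directions `s`, `t`. -/
def sq {d : ℕ} (a : Fin d → ℤ) (s t : Fin d) (i : ZMod 4) : Fin d → ℤ := fun r =>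
  a r + ((if r = s then (![0, 1, 1, 0] : Fin 4 → ℤ) i else 0) +
    (if r = t then (![0, 0, 1, 1] : Fin 4 → ℤ) i else 0))

theorem sq_adj {d : ℕ} (a : Fin d → ℤ) (s t : Fin d) (hst : s ≠ t) (i : ZMod 4) :
    (Zd d).Adj (sq a s t i) (sq a s t (i + 1)) := by
  show ∑ r, |sq a s t i r - sq a s t (i + 1) r| = 1
  rw [Fintype.sum_eq_add s t hst]
  · unfold sq
    simp only [hst, hst.symm, if_true, if_false]
    revert i
    show ∀ i : Fin 4, _
    intro i
    fin_cases i <;> simp <;> rfl
  · rintro r ⟨h1, h2⟩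
    unfold sq
    simp only [h1, h2, if_false]
    simp

theorem sq_inj {d : ℕ} (a : Fin d → ℤ) (s t : Fin d) (hst : s ≠ t) :
    Function.Injective (sq a s t) := by
  intro i j hij
  have h1 := congrFun hij s
  have h2 := congrFun hij t
  unfold sq at h1 h2
  simp only [hst, hst.symm, if_true, if_false, add_zero, zero_add] at h1 h2
  have h1' := add_left_cancel h1
  have h2' := add_left_cancel h2
  have key : ∀ i j : Fin 4, (![0, 1, 1, 0] : Fin 4 → ℤ) i = (![0, 1, 1, 0] : Fin 4 → ℤ) j →
      (![0, 0, 1, 1] : Fin 4 → ℤ) i = (![0, 0, 1, 1] : Fin 4 → ℤ) j → i = j := by decide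
  exact key i j h1' h2'

theorem sq_near {d : ℕ} (a : Fin d → ℤ) (s t : Fin d) (hst : s ≠ t) (i : ZMod 4) (r : Fin d) :
    |sq a s t i r - a r| ≤ 1 := by
  unfold sq
  rw [add_sub_cancel_left]
  by_cases h1 : r = s
  · subst h1
    simp only [hst, if_true, if_false, add_zero]
    revert i
    show ∀ i : Fin 4, _
    decide
  · by_cases h2 : r = t
    · subst h2
      simp only [h1, if_true, if_false, zero_add]
      revert i
      show ∀ i : Fin 4, _
      decide
    · simp only [h1, h2, if_false]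
      norm_num

theorem de_lexz (hLAS : S_LAS) : S_LEXZ := by
  intro d hd x n hx
  obtain ⟨s, t, hst⟩ : ∃ s t : Fin d, s ≠ t :=
    ⟨⟨0, by omega⟩, ⟨1, by omega⟩, by simp [Fin.ext_iff]⟩
  obtain ⟨y, hy⟩ : ∃ y : ℕ → Fin d → ℤ, y = fun k =>
    if k ≤ n then x k else sq (x n) s t ((k - n : ℕ) : ZMod 4) := ⟨_, rfl⟩
  have hle : ∀ k ≤ n, y k = x k := by
    intro k hk
    rw [hy]
    simp only [hk, if_true]
  have hge : ∀ i, y (n + i) = sq (x n) s t ((i : ℕ) : ZMod 4) := by
    intro i
    rw [hy]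
    by_cases h : i = 0
    · subst h
      simp only [add_zero, le_refl, if_true]
      funext r
      simp [sq]
    · have h' : ¬ n + i ≤ n := by omega
      simp only [h', if_false]
      rw [Nat.add_sub_cancel_left]
  have hval : ∀ N, Val (Zd d) y N := by
    intro N k _
    rcases lt_or_ge k n with h | h
    · rw [hle k h.le, hle (k + 1) h]
      exact hx k h
    · obtain ⟨i, rfl⟩ := Nat.exists_eq_add_of_le h
      rw [hge i, add_assoc, hge (i + 1)]
      push_cast
      exact sq_adj _ s t hst _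
  refine ⟨y, hle, hval, ?_, ?_⟩
  · intro j hj r
    obtain ⟨i, rfl⟩ := Nat.exists_eq_add_of_le hj
    rw [hge i]
    exact sq_near _ s t hst _ r
  · have h := hLAS (Fin d → ℤ) (Zd d) y n 4 (sq (x n) s t)
      ⟨by norm_num, sq_inj _ s t hst, sq_adj _ s t hst⟩ (hval n) (fun i _ => hge i)
    simpa using h

end Pool.Agent.H314
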